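import Pool.Agent.Q29.SU.Main

/-!
# A hard word without a trace-zero witness in `SU(2)`

The definitions (positive words in the free group on `Fin 2`, hard words `u⁻¹ v`, the value
`w(A, B)`, its trace, trace-zero witnesses) are in `Pool.Agent.Q29.SU.Main`.
The word is `w = u⁻¹ v` with `u = (ab)³ (ba) (ab)² (ba)` and `v = (ba) (ab)² (ba) (ab)³`.
-/

namespace Pool.Agent.Results.MP_b94424_al.NoWitness

open Q29.SU

/-- There is a hard word `w = u⁻¹ v` whose trace `tr w(A, B)` is a positive real number for all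
`A, B ∈ SU(2)`.  In particular not every hard word has a trace-zero witness. -/
theorem result :
    (∃ w : FreeGroup (Fin 2), IsHardWord w ∧
      ∀ A B : SU2, ∃ r : ℝ, 0 < r ∧ tr (eval A B w) = (r : ℂ)) ∧
    ¬ ∀ w : FreeGroup (Fin 2), IsHardWord w → HasTraceZeroWitness w := by
  refine ⟨⟨wW, wW_hard, wW_pos⟩, fun h => ?_⟩
  obtain ⟨A, B, hAB⟩ := h wW wW_hard
  obtain ⟨r, hr, h'⟩ := wW_pos A B
  rw [hAB] at h'
  have : r = 0 := by exact_mod_cast h'.symm
  exact hr.ne' this

end Pool.Agent.Results.MP_b94424_al.NoWitness
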